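import Pool.Agent.H66.FA.T

set_option autoImplicit false

open Matrix

namespace Pool.Agent.H53.FA

open Pool.Agent.H66.FA Pool.Agent.H63.Fins MeasureTheory Filter Topology

theorem pf_DST (h1 : T_ML) (h2 : T_REG) (h3 : T_ISR) (h4 : T_VOL) : T_DST := by
  intro m B E F hE hF hL
  refine ⟨-Real.log (sigmaBH F 0), fun x y hy => ?_⟩
  obtain ⟨hML0, _⟩ := h1 _ F hF 0
  obtain ⟨_, hfund⟩ := h1 _ F hF x
  obtain ⟨_, hdet⟩ := h3 m B E F hE hF hL
  obtain ⟨hs0, hs⟩ := h4 m B E F hE hF hL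
  obtain ⟨hd, hδ⟩ := hdet x y hy
  have hEy : E (-x 0) y ≠ 0 := by
    intro h0
    apply hy
    have h := hE.add (x 0) (-x 0) y
    rw [h0, map_zero, add_neg_cancel, hE.zero] at h
    exact h
  have hD : 0 < DD (fun y => F 0 y ^ 2 / 2) (E (-x 0) y) :=
    ((h2 _ _ hML0).2.2.2.2.2.2 _ hEy).2.2.2.1
  unfold distortion
  rw [hfund y hy]
  change Real.log (Real.sqrt (DD (fun y => F x y ^ 2 / 2) y) / sigmaBH F x) = _
  rw [hd, hs x, abs_of_pos hδ, Real.sqrt_mul (sq_nonneg _), Real.sqrt_sq hδ.le]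
  have hq : (E (-x 0)).det * Real.sqrt (DD (fun y => F 0 y ^ 2 / 2) (E (-x 0) y)) /
      (sigmaBH F 0 * (E (-x 0)).det) =
      Real.sqrt (DD (fun y => F 0 y ^ 2 / 2) (E (-x 0) y)) / sigmaBH F 0 := by
    have h5 := hδ.ne'
    have h6 := hs0.ne'
    field_simp
  rw [hq, Real.log_div (Real.sqrt_pos.2 hD).ne' hs0.ne', Real.log_sqrt hD.le]
  ring

end Pool.Agent.H53.FA
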