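import Pool.Agent.H66.FA.T

set_option autoImplicit false

open Matrix

namespace Pool.Agent.H53.FA

open Pool.Agent.H66.FA Pool.Agent.H63.Fins MeasureTheory Filter Topology

/-- Derivative of a function of `(s, y)` along a coordinate of `y`. -/
theorem hasDerivAt_upd {n : ℕ} {Q : ℝ × V n → ℝ} {s : ℝ} {y : V n}
    (hQ : DifferentiableAt ℝ Q (s, y)) (i : Fin n) :
    HasDerivAt (fun t => Q (s, Function.update y i t)) (fderiv ℝ Q (s, y) (0, ee i)) (y i) := by
  have h1 : HasDerivAt (fun t : ℝ => ((s, Function.update y i t) : ℝ × V n)) (0, ee i) (y i) := by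
    refine HasDerivAt.prodMk (hasDerivAt_const _ _) ?_
    exact hasDerivAt_update y i (y i)
  have h2 : ((s, Function.update y i (y i)) : ℝ × V n) = (s, y) := by
    rw [Function.update_eq_self]
  have h3 : HasFDerivAt Q (fderiv ℝ Q (s, y)) ((fun t : ℝ => ((s, Function.update y i t) : ℝ × V n))
      (y i)) := by
    simp only [h2]
    exact hQ.hasFDerivAt
  exact h3.comp_hasDerivAt (y i) h1

theorem isOpenU (n : ℕ) : IsOpen {p : ℝ × V n | p.2 ≠ 0} :=
  isOpen_ne_fun continuous_snd continuous_const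

/-- The partial derivative of `Λ` in direction `i`. -/
noncomputable def Gp {n : ℕ} (Q : ℝ × V n → ℝ) (i : Fin n) (p : ℝ × V n) : ℝ :=
  fderiv ℝ Q p (0, ee i)

theorem Gp_smooth {n : ℕ} {Q : ℝ × V n → ℝ} (hQ : ContDiffOn ℝ (⊤ : ℕ∞) Q {p | p.2 ≠ 0})
    (i : Fin n) : ContDiffOn ℝ (⊤ : ℕ∞) (Gp Q i) {p | p.2 ≠ 0} := by
  have h := hQ.fderiv_of_isOpen (m := (⊤ : ℕ∞)) (isOpenU n) (by simp)
  exact h.clm_apply contDiffOn_const

theorem diffAt {n : ℕ} {Q : ℝ × V n → ℝ} (hQ : ContDiffOn ℝ (⊤ : ℕ∞) Q {p | p.2 ≠ 0})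
    {s : ℝ} {y : V n} (hy : y ≠ 0) : DifferentiableAt ℝ Q (s, y) :=
  (hQ.differentiableOn (by simp)).differentiableAt ((isOpenU n).mem_nhds hy)

theorem fund_eq {m : ℕ} {F : V (m + 1) → V (m + 1) → ℝ} {Λ : ℝ → V (m + 1) → ℝ} (h : IsR F Λ)
    (x y : V (m + 1)) (hy : y ≠ 0) (i j : Fin (m + 1)) :
    fund F x y i j = Gp (Gp (fun p => Λ p.1 p.2) j) i (x 0, y) := by
  have hj : ∀ z : V (m + 1), z ≠ 0 → pdy j (fun x y => F x y ^ 2) x z =
      2 * Gp (fun p => Λ p.1 p.2) j (x 0, z) := by
    intro z hz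
    unfold pdy
    have h1 := (hasDerivAt_upd (diffAt h.smooth (s := x 0) hz) j).const_mul 2
    simp only [h.eq]
    exact h1.deriv
  have hi : pdy i (pdy j (fun x y => F x y ^ 2)) x y =
      2 * Gp (Gp (fun p => Λ p.1 p.2) j) i (x 0, y) := by
    have h1 := (hasDerivAt_upd (diffAt (Gp_smooth h.smooth j) (s := x 0) hy) i).const_mul 2
    have h2 : (fun t => pdy j (fun x y => F x y ^ 2) x (Function.update y i t)) =ᶠ[𝓝 (y i)]
        fun t => 2 * Gp (fun p => Λ p.1 p.2) j (x 0, Function.update y i t) := by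
      have hc : Continuous fun t : ℝ => Function.update y i t :=
        continuous_const.update i continuous_id
      have h3 : ∀ᶠ t in 𝓝 (y i), Function.update y i t ≠ 0 := by
        have h4 : Function.update y i (y i) ≠ 0 := by rwa [Function.update_eq_self]
        exact hc.continuousAt.eventually_ne h4
      filter_upwards [h3] with t ht
      exact hj _ ht
    have h5 : pdy i (pdy j (fun x y => F x y ^ 2)) x y =
        deriv (fun t => pdy j (fun x y => F x y ^ 2) x (Function.update y i t)) (y i) := rfl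
    rw [h5, h2.deriv_eq]
    exact h1.deriv
  unfold fund
  rw [hi]
  ring

theorem pf_RB (_h1 : T_PDF) (h2 : T_RA) : T_RB := by
  intro m F Λ h v hv hv0 hd
  -- the second derivative in `s`
  have hsm : ContDiff ℝ (⊤ : ℕ∞) (fun s => Λ s v) := by
    have hc : ContDiff ℝ (⊤ : ℕ∞) (fun s : ℝ => ((s, v) : ℝ × V (m + 1))) :=
      contDiff_id.prodMk contDiff_const
    exact h.smooth.comp_contDiff hc (fun _ => hv)
  have hdd : DifferentiableAt ℝ (deriv fun s => Λ s v) 0 :=
    ((contDiff_infty_iff_deriv.1 hsm).2.differentiable (by simp)) 0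
  -- continuity of the inverse
  have hent : ∀ i j, Continuous fun t : ℝ => fund F (Function.update 0 0 t) v i j := by
    intro i j
    have he : (fun t : ℝ => fund F (Function.update 0 0 t) v i j) =
        fun t => Gp (Gp (fun p => Λ p.1 p.2) j) i (t, v) := by
      funext t
      rw [fund_eq h _ v hv i j]
      simp
    rw [he]
    have hg := (Gp_smooth (Gp_smooth h.smooth j) i).continuousOn
    exact hg.comp_continuous (continuous_id.prodMk continuous_const) (fun _ => hv)
  have hmat : Continuous fun t : ℝ => fund F (Function.update 0 0 t) v :=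
    continuous_matrix hent
  have hdet : ∀ t : ℝ, (fund F (Function.update 0 0 t) v).det ≠ 0 := fun t =>
    (h.pos _ v hv).det_pos.ne'
  have hinv : Continuous fun t : ℝ => (fund F (Function.update 0 0 t) v)⁻¹ 0 0 := by
    have he : (fun t : ℝ => (fund F (Function.update 0 0 t) v)⁻¹ 0 0) = fun t =>
        ((fund F (Function.update 0 0 t) v).det)⁻¹ *
          (fund F (Function.update 0 0 t) v).adjugate 0 0 := by
      funext t
      rw [Matrix.inv_def, Ring.inverse_eq_inv', Matrix.smul_apply, smul_eq_mul]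
    rw [he]
    exact (hmat.matrix_det.inv₀ hdet).mul (hmat.matrix_adjugate.matrix_elem 0 0)
  -- the spray
  have hspr : ∀ t : ℝ, spray F (Function.update 0 0 t) v 0 =
      -(1 / 2 * (fund F (Function.update 0 0 t) v)⁻¹ 0 0) * deriv (fun s => Λ s v) t := by
    intro t
    rw [h2 m F Λ h (Function.update 0 0 t) v 0 hv]
    have hp : pdx 0 (fun x y => Λ (x 0) y) (Function.update (0 : V (m + 1)) 0 t) v =
        deriv (fun s => Λ s v) t := by
      unfold pdx
      simp
    rw [Finset.sum_eq_single (0 : Fin (m + 1))]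
    · rw [if_pos rfl, hp, hv0]
      ring
    · intro l _ hl
      rw [if_neg hl, hv0]
      ring
    · intro h0
      exact absurd (Finset.mem_univ _) h0
  have hfun : pdx 0 (fun x y => spray F x y 0) 0 v =
      deriv (fun t => -(1 / 2 * (fund F (Function.update 0 0 t) v)⁻¹ 0 0) *
        deriv (fun s => Λ s v) t) 0 := by
    unfold pdx
    simp only [hspr]
    rfl
  rw [hfun]
  have hmain : HasDerivAt (fun t => -(1 / 2 * (fund F (Function.update 0 0 t) v)⁻¹ 0 0) *
      deriv (fun s => Λ s v) t) (-(1 / 2 * (fund F (Function.update 0 0 0) v)⁻¹ 0 0) *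
        deriv (deriv fun s => Λ s v) 0) 0 := by
    rw [hasDerivAt_iff_tendsto_slope]
    have hs := hasDerivAt_iff_tendsto_slope.1 hdd.hasDerivAt
    have hg : Tendsto (fun t : ℝ => -(1 / 2 * (fund F (Function.update 0 0 t) v)⁻¹ 0 0))
        (𝓝[≠] 0) (𝓝 (-(1 / 2 * (fund F (Function.update 0 0 0) v)⁻¹ 0 0))) :=
      ((continuous_const.mul hinv).neg.tendsto 0).mono_left nhdsWithin_le_nhds
    refine (hg.mul hs).congr ?_
    intro t
    simp only [slope_def_field, hd]
    ring
  rw [hmain.deriv]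
  have h00 : Function.update (0 : V (m + 1)) 0 (0 : ℝ) = 0 := by
    simp
  rw [h00]
  ring

end Pool.Agent.H53.FA
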